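import Pool.Agent.Run7.h89.P24.M6
import Pool.Agent.Run7.h555.P15.Tg
import Pool.Agent.Run7.h555.G6.U4

/-!
The minimality of the twists by `-n` of `X_0(24)`.
-/

set_option autoImplicit false
set_option linter.unusedSectionVars false

namespace Run7.h89.P24

open NumberField IsDedekindDomain WithZero WeierstrassCurve
open Rat.HeightOneSpectrum (natGenerator primesEquiv prime_natGenerator span_natGenerator)
open Run7.h555.Tam (MinimalAt nonsing c Tm asIdeal_eq mem_iff val_gen val_one val_sqf val_alg cz_compl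
  val_nat delta_int exists_exp vint exp_sq)
open Pool.Agent.Y700 (VR)

lemma Cn.mod8 {n : ℕ} (h : Cn n) : n % 8 = 3 := by
  have := h.2
  omega

lemma Cn.mod4 {n : ℕ} (h : Cn n) : n % 4 = 3 := by
  have := h.2
  omega

lemma Cn.mod3 {n : ℕ} (h : Cn n) : n % 3 = 2 := by
  have := h.2
  omega

lemma Cn.three {n : ℕ} (h : Cn n) : ¬ 3 ∣ n := by
  have := h.mod3
  omega

lemma Cn.two {n : ℕ} (h : Cn n) : ¬ 2 ∣ n := by
  have := h.mod4
  omega

section field

variable {k : Type} [Field k] [CharZero k]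

/-- the change of the equation -/
lemma vr (n : ℕ) :
    VR (⟨0, -(2 * (n : k)), 0, -(3 * (n : k) ^ 2), 0⟩ : WeierstrassCurve k)
      ((CI n).map (Int.castRingHom k)) 1 n 0 0 := by
  refine ⟨one_ne_zero, ?_, ?_, ?_, ?_, ?_⟩
  · show (1 : k) * ((0 : ℤ) : k) = 0 + 2 * 0
    push_cast
    ring
  · show (1 : k) ^ 2 * ((-(-(n : ℤ)) : ℤ) : k) = -(2 * (n : k)) - 0 * 0 + 3 * n - 0 ^ 2
    push_cast
    ring
  · show (1 : k) ^ 3 * ((0 : ℤ) : k) = 0 + n * 0 + 2 * 0
    push_cast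
    ring
  · show (1 : k) ^ 4 * ((-(4 * (-(n : ℤ)) ^ 2) : ℤ) : k) = -(3 * (n : k) ^ 2) - 0 * 0 +
      2 * n * (-(2 * n)) - (0 + n * 0) * 0 + 3 * n ^ 2 - 2 * 0 * 0
    push_cast
    ring
  · show (1 : k) ^ 6 * ((4 * (-(n : ℤ)) ^ 3 : ℤ) : k) = 0 + n * (-(3 * n ^ 2)) +
      n ^ 2 * (-(2 * n)) + n ^ 3 - 0 * 0 - 0 ^ 2 - n * 0 * 0
    push_cast
    ring

/-- the discriminant -/
lemma disc (n : ℕ) :
    ((CI n).map (Int.castRingHom k)).Δ = 2304 * (n : k) ^ 6 := by
  have h1 := (vr (k := k) n).delta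
  have h2 : (⟨0, -(2 * (n : k)), 0, -(3 * (n : k) ^ 2), 0⟩ : WeierstrassCurve k).Δ =
      2304 * (n : k) ^ 6 := by
    unfold WeierstrassCurve.Δ WeierstrassCurve.b₂ WeierstrassCurve.b₄ WeierstrassCurve.b₆
      WeierstrassCurve.b₈
    ring
  rw [h2, one_pow, one_mul] at h1
  exact h1.symm

end field

lemma bc (n : ℕ) (k : Type) [Field k] [Algebra ℚ k] :
    (EI n).baseChange k = (CI n).map (Int.castRingHom k) := by
  have : CharZero k := charZero_of_injective_algebraMap (algebraMap ℚ k).injective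
  rw [WeierstrassCurve.baseChange, WeierstrassCurve.map_map]
  congr 1
  exact RingHom.ext_int _ _

variable (v : HeightOneSpectrum (𝓞 ℚ))

/-- the order of the discriminant -/
lemma val_delta {n : ℕ} (h : Cn n) :
    ∃ k : ℤ, 0 ≤ k ∧ k < 12 ∧ v.valuation ℚ (EI n).Δ = exp (-k) := by
  have hm := h.1
  have hd : (EI n).Δ = ((2 : ℕ) : ℚ) ^ 8 * ((3 : ℕ) : ℚ) ^ 2 * ((n : ℕ) : ℚ) ^ 6 := by
    have := disc (k := ℚ) n
    have e2 : (EI n).Δ = 2304 * (n : ℚ) ^ 6 := this
    rw [e2]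
    push_cast
    ring
  have e : v.valuation ℚ (EI n).Δ = v.valuation ℚ ((2 : ℕ) : ℚ) ^ 8 * v.valuation ℚ ((3 : ℕ) : ℚ) ^ 2 *
      v.valuation ℚ ((n : ℕ) : ℚ) ^ 6 := by
    rw [hd, map_mul, map_mul, map_pow, map_pow, map_pow]
  rw [e]
  have hp := prime_natGenerator v
  have n2 : natGenerator v ∣ 2 → natGenerator v = 2 := (Nat.prime_dvd_prime_iff_eq hp Nat.prime_two).1
  have n3 : natGenerator v ∣ 3 → natGenerator v = 3 := (Nat.prime_dvd_prime_iff_eq hp Nat.prime_three).1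
  by_cases hv : natGenerator v ∣ n
  · have h3 : ¬ natGenerator v ∣ 2 := by
      intro h'
      rw [n2 h'] at hv
      exact h.two hv
    have h3' : ¬ natGenerator v ∣ 3 := by
      intro h'
      rw [n3 h'] at hv
      exact h.three hv
    rw [val_sqf v hm hv, val_one v h3, val_one v h3', one_pow, one_pow, one_mul, one_mul, ← exp_nsmul]
    exact ⟨6, by norm_num, by norm_num, by norm_num⟩
  · rw [val_one v hv, one_pow, mul_one]
    by_cases h3 : natGenerator v ∣ 2
    · have h3' : ¬ natGenerator v ∣ 3 := by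
        rw [n2 h3]
        norm_num
      rw [val_sqf v Nat.prime_two.prime.squarefree h3, val_one v h3', one_pow, mul_one, ← exp_nsmul]
      exact ⟨8, by norm_num, by norm_num, by norm_num⟩
    · by_cases h3' : natGenerator v ∣ 3
      · rw [val_sqf v Nat.prime_three.prime.squarefree h3', val_one v h3, one_pow, one_mul, ← exp_nsmul]
        exact ⟨2, by norm_num, by norm_num, by norm_num⟩
      · rw [val_one v h3, val_one v h3', one_pow, one_pow, mul_one]
        exact ⟨0, le_rfl, by norm_num, by simp⟩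

/-- **the equation is minimal** -/
theorem minimal : S_MIN := by
  intro n h v C h1 h2' h3 h4 h6
  have hint := delta_int (C • EI n) h1 h2' h3 h4 h6
  obtain ⟨k, hk0, hk, hd⟩ := val_delta v h
  rw [variableChange_Δ, map_mul, map_pow, hd] at hint ⊢
  obtain ⟨l, hl⟩ := exists_exp (v.valuation ℚ) (C.u⁻¹).ne_zero
  rw [hl, ← exp_nsmul, ← exp_add] at hint ⊢
  rw [← exp_zero, exp_le_exp] at hint
  rw [exp_le_exp]
  simp only [nsmul_eq_mul] at hint ⊢
  push_cast at hint ⊢
  omega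

end Run7.h89.P24
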