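import Pool.Agent.W165.CE.FF
import Pool.Agent.Y812.XF.HtKd
import Pool.Agent.W97.MT.Stm

/-!
The numbers of points of the twists of `X_0(24)`.

Level `24` analogue of helper555's `Run7/h555/P15/Ap.lean`.
-/

set_option autoImplicit false

open WeierstrassCurve

namespace Run7.h89.P24

open Pool.Agent.W97.MT (affCount ap)
open Pool.Agent.Y682.XF (kr)
open Pool.Agent.H82R3.EK (card_points)

/-- the quadratic twist by `D` of the curve `X_0(24)`: `y² = (x - D) (x - 2 D) (x + 2 D)` -/
def WT (D : ℤ) : WeierstrassCurve ℤ :=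
  ⟨0, -D, 0, -(4 * D ^ 2), 4 * D ^ 3⟩

lemma WT_one : WT 1 = ⟨0, -1, 0, -4, 4⟩ := by
  unfold WT
  norm_num

/-- the equation of the twist -/
lemma equation_iff (D : ℤ) (R : Type) [CommRing R] (x y : R) :
    ((WT D).map (Int.castRingHom R)).toAffine.Equation x y ↔
      y ^ 2 = (x - D) * (x - 2 * D) * (x + 2 * D) := by
  rw [WeierstrassCurve.Affine.equation_iff]
  unfold WT
  simp only [WeierstrassCurve.map, eq_intCast]
  push_cast
  constructor
  · intro h
    linear_combination h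
  · intro h
    linear_combination h

/-- the cubic form -/
lemma pts_cubic (D : ℤ) (k : Type) [Field k] :
    Nat.card {P : k × k // ((WT D).map (Int.castRingHom k)).toAffine.Equation P.1 P.2} =
    Nat.card {x : k × k // x.2 ^ 2 = (x.1 - D) * (x.1 - 2 * D) * (x.1 + 2 * D)} :=
  Nat.card_congr (Equiv.subtypeEquivRight fun P => equation_iff D k P.1 P.2)

section sums

variable {k : Type} [Field k] [Fintype k] [DecidableEq k]

/-- the character sum -/
noncomputable def cs (D : k) : ℤ := ∑ x : k, quadraticChar k ((x - D) * (x - 2 * D) * (x + 2 * D))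

lemma cs_scale (hk : ringChar k ≠ 2) (D : k) : cs D = quadraticChar k D * cs (1 : k) := by
  by_cases hD : D = 0
  · rw [hD, MulChar.map_zero, zero_mul]
    unfold cs
    simp only [mul_zero, sub_zero, add_zero]
    have h1 : ∀ x : k, quadraticChar k (x * x * x) = quadraticChar k x := by
      intro x
      rw [map_mul, map_mul]
      by_cases hx : x = 0
      · rw [hx, MulChar.map_zero, mul_zero]
      · rw [← pow_two, quadraticChar_sq_one hx, one_mul]
    simp_rw [h1]
    exact quadraticChar_sum_zero hk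
  · unfold cs
    rw [Finset.mul_sum]
    have e := Equiv.sum_comp (Equiv.mulLeft₀ D hD)
      (fun x => quadraticChar k ((x - D) * (x - 2 * D) * (x + 2 * D)))
    rw [← e]
    refine Finset.sum_congr rfl fun x _ => ?_
    show quadraticChar k ((D * x - D) * (D * x - 2 * D) * (D * x + 2 * D)) = _
    have e1 : (D * x - D) * (D * x - 2 * D) * (D * x + 2 * D) =
        D ^ 2 * (D * ((x - 1) * (x - 2 * 1) * (x + 2 * 1))) := by ring
    rw [e1, map_mul, map_pow, quadraticChar_sq_one hD, one_mul, map_mul]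

end sums

lemma ap_odd (D : ℤ) {p : ℕ} [Fact p.Prime] (hp2 : p ≠ 2) :
    ap (WT D) p = -cs (D : ZMod p) := by
  have hF : ringChar (ZMod p) ≠ 2 := by
    rw [ZMod.ringChar_zmod_n]; exact hp2
  unfold ap affCount
  rw [pts_cubic D (ZMod p),
    card_points hF (fun x => (x - (D : ZMod p)) * (x - 2 * (D : ZMod p)) * (x + 2 * (D : ZMod p))),
    ZMod.card]
  unfold cs
  ring

lemma two_pts : ∀ D : ZMod 2, Fintype.card {P : ZMod 2 × ZMod 2 // P.2 ^ 2 =
    (P.1 - D) * (P.1 - 2 * D) * (P.1 + 2 * D)} = 2 := by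
  decide

/-- the coefficient at two -/
lemma ap_two (D : ℤ) : ap (WT D) 2 = 0 := by
  have : Fact (Nat.Prime 2) := ⟨Nat.prime_two⟩
  unfold ap affCount
  rw [pts_cubic D (ZMod 2), Nat.card_eq_fintype_card, two_pts]
  norm_num

/-- **the twist** -/
theorem ap_twist (D : ℤ) {p : ℕ} (hp : p.Prime) :
    ap (WT D) p = kr D p * ap (WT 1) p := by
  have : Fact p.Prime := ⟨hp⟩
  by_cases hp2 : p = 2
  · subst hp2
    rw [ap_two, ap_two, mul_zero]
  · unfold kr
    rw [if_neg hp2, ap_odd D hp2, ap_odd 1 hp2]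
    have hF : ringChar (ZMod p) ≠ 2 := by
      rw [ZMod.ringChar_zmod_n]; exact hp2
    rw [cs_scale hF, Int.cast_one]
    have e : quadraticChar (ZMod p) (D : ZMod p) = jacobiSym D p := by
      rw [← jacobiSym.legendreSym.to_jacobiSym]
      rfl
    rw [e]
    ring

/-- Hasse's bound -/
theorem ap_good {l : ℕ} (hl : l.Prime) (h : ¬ l ∣ 24) :
    |(ap (WT 1) l : ℝ)| ≤ 2 * Real.sqrt l := by
  have : Fact l.Prime := ⟨hl⟩
  have hp2 : l ≠ 2 := by
    rintro rfl
    exact h (by norm_num)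
  have hF : ringChar (ZMod l) ≠ 2 := by
    rw [ZMod.ringChar_zmod_n]; exact hp2
  have h3 : (3 : ZMod l) ≠ 0 := by
    intro h0
    have h1 : ((3 : ℕ) : ZMod l) = 0 := by exact_mod_cast h0
    rw [ZMod.natCast_eq_zero_iff] at h1
    exact h (h1.trans (by norm_num))
  have h27 : (27 : ZMod l) ≠ 0 := by
    rw [show (27 : ZMod l) = 3 * (3 * 3) by norm_num]
    exact mul_ne_zero h3 (mul_ne_zero h3 h3)
  have h9 := W165.CE.hasse hF (-(13 / 3) : ZMod l) (70 / 27)
  rw [ZMod.card] at h9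
  have e : Nat.card {x : ZMod l × ZMod l // x.2 ^ 2 = x.1 ^ 3 + (-(13 / 3)) * x.1 + 70 / 27} =
      affCount (WT 1) l := by
    unfold affCount
    rw [pts_cubic 1 (ZMod l)]
    refine Nat.card_congr
      { toFun := fun x => ⟨(x.1.1 + 1 / 3, x.1.2), ?_⟩
        invFun := fun x => ⟨(x.1.1 - 1 / 3, x.1.2), ?_⟩
        left_inv := fun x => ?_
        right_inv := fun x => ?_ }
    · have h := x.2
      show x.1.2 ^ 2 = (x.1.1 + 1 / 3 - ((1 : ℤ) : ZMod l)) * (x.1.1 + 1 / 3 - 2 * ((1 : ℤ) : ZMod l)) *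
        (x.1.1 + 1 / 3 + 2 * ((1 : ℤ) : ZMod l))
      rw [h, Int.cast_one]
      field_simp
      ring
    · obtain ⟨⟨a, b⟩, h⟩ := x
      show b ^ 2 = (a - 1 / 3) ^ 3 + (-(13 / 3)) * (a - 1 / 3) + 70 / 27
      have h' : b ^ 2 = (a - ((1 : ℤ) : ZMod l)) * (a - 2 * ((1 : ℤ) : ZMod l)) *
        (a + 2 * ((1 : ℤ) : ZMod l)) := h
      rw [h', Int.cast_one]
      field_simp
      ring
    · apply Subtype.ext
      apply Prod.ext
      · show x.1.1 + 1 / 3 - 1 / 3 = x.1.1
        ring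
      · rfl
    · apply Subtype.ext
      apply Prod.ext
      · show x.1.1 - 1 / 3 + 1 / 3 = x.1.1
        ring
      · rfl
  rw [e] at h9
  unfold ap
  push_cast at h9 ⊢
  exact h9

end Run7.h89.P24
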